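import Pool.Agent.MWNP.Stmts
import Pool.Agent.Helper41_MWN.NPH

/-!
# Block MWNP, row PPH: the pentagon in base (h), arbitrary period (twin of NPH by helper41)
-/

set_option autoImplicit false

namespace Pool.Agent.MWNP.H52

open Pool.Agent.Helper14_MV Pool.Agent.Helper2_MV Pool.Agent.MVO Pool.Agent.MWL Pool.Agent.MWS
  Pool.Agent.MWF Pool.Agent.MWN Pool.Agent.MWNP Pool.Agent.MWN.H41

theorem pph (hnin : NinStmt) (hnka : NkaStmt) (hnvg : NvgStmt) (hnpe : NpeStmt) (hnib : NibStmt)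
    (hphb : PhbStmt) (hpex : PexStmt) : PphStmt := by
  intro n β hb hiso hmod k i A1 B1 A2 B2 st a a' b b' hpen hA1 hB1 hA2 hB2 cA1 cB1 cA2 cB2
  by_contra hno
  push Not at hno
  obtain ⟨hno1, hno2⟩ := hno
  obtain ⟨hnc, hcap, _, _, _⟩ := hphb n β hb hiso
  unfold penB at hpen
  simp only [Bool.and_eq_true, List.all_eq_true, List.mem_range, beq_iff_eq, Bool.or_eq_true,
    Nat.ble_eq] at hpen
  obtain ⟨⟨⟨⟨hinc, ⟨⟨hk1, hk2⟩, hk3⟩, hk4⟩, hall⟩, ⟨⟨hda, hda'⟩, hdb⟩, hdb'⟩, ⟨hai, hbi⟩, hik⟩ :=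
    hpen
  have hall' : ∀ j ≤ k, ((a j == 0) = (a' j == 0)) ∧ ((b j == 0) = (b' j == 0)) ∧
      (A1 j).sat (a' j) = true ∧ (A2 j).sat (a' j) = true ∧ (B1 j).sat (b' j) = true ∧
      (B2 j).sat (b' j) = true ∧ (j = i ∨ ((A1 j = Cd.z ∨ B1 j = Cd.z) ∧
        (A2 j = Cd.z ∨ B2 j = Cd.z))) := by
    intro j hj
    obtain ⟨⟨⟨⟨⟨⟨h1, h2⟩, h3⟩, h4⟩, h5⟩, h6⟩, h7⟩ := hall j (by omega)
    exact ⟨h1, h2, h3, h4, h5, h6, h7⟩
  have sA1 : ∀ j ≤ k, (A1 j).sat (a' j) = true := fun j hj => (hall' j hj).2.2.1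
  have sA2 : ∀ j ≤ k, (A2 j).sat (a' j) = true := fun j hj => (hall' j hj).2.2.2.1
  have sB1 : ∀ j ≤ k, (B1 j).sat (b' j) = true := fun j hj => (hall' j hj).2.2.2.2.1
  have sB2 : ∀ j ≤ k, (B2 j).sat (b' j) = true := fun j hj => (hall' j hj).2.2.2.2.2.1
  have on1 : Onl k i A1 B1 := fun j hj hne => by
    rcases (hall' j hj).2.2.2.2.2.2 with h | h
    · exact absurd h hne
    · exact h.1
  have on2 : Onl k i A2 B2 := fun j hj hne => by
    rcases (hall' j hj).2.2.2.2.2.2 with h | h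
    · exact absurd h hne
    · exact h.2
  have supa : ∀ j ≤ k, (a j = 0 ↔ a' j = 0) := fun j hj => by
    have h := (hall' j hj).1
    constructor
    · intro h0
      rw [h0] at h
      simpa using h.symm
    · intro h0
      rw [h0] at h
      simpa using h
  have supb : ∀ j ≤ k, (b j = 0 ↔ b' j = 0) := fun j hj => by
    have h := (hall' j hj).2.1
    constructor
    · intro h0
      rw [h0] at h
      simpa using h.symm
    · intro h0
      rw [h0] at h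
      simpa using h
  -- the exchange argument
  have key : ∀ A B : ℕ → Cd, Onl k i A B → A i ≠ Cd.any → B i ≠ Cd.any → A i ≠ Cd.z →
      B i ≠ Cd.z → 2 ≤ deg k (fun j => (A j).h) → 2 ≤ deg k (fun j => (B j).h) →
      Clo β k A → Clo β k B → ¬ RR β (asm k (cs i A B st)) (asm k (cn i A B st)) →
        β ≤ LC k A B (Fst st) i := by
    intro A B hon hAa hBa hAz hBz h1 h2 cA cB hn
    refine hnvg β hcap hnc k A B (Fst st) i cA cB ?_
    intro U V hU hV sU0 sU1 sV0 sV1 hr hf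
    by_contra hf'
    have hU0 : 0 ∈ U i := by
      have := pos_of (sU0 i hik) hAz hAa
      exact List.count_pos_iff.1 this
    have hU1 : 1 ∈ U i := by
      have := pos_of (sU1 i hik) hBz hBa
      exact List.count_pos_iff.1 this
    exact hn (hpex n β hb hiso k i A B st U V hik hon hAz hBz h1 h2 hU hV sU0 sU1 sV0 sV1 hU0 hU1 hr hf
      hf')
  have le1 : β ≤ LC k A1 B1 (Fst st) i := key A1 B1 on1 hA1 hB1 (ne_z (sA1 i hik) hai)
    (ne_z (sB1 i hik) hbi) (deg_h sA1 hda') (deg_h sB1 hdb') cA1 cB1 hno1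
  have le2 : β ≤ LC k A2 B2 (Fst st) i := key A2 B2 on2 hA2 hB2 (ne_z (sA2 i hik) hai)
    (ne_z (sB2 i hik) hbi) (deg_h sA2 hda') (deg_h sB2 hdb') cA2 cB2 hno2
  have l1 : L1 (LC k A2 B2 (Fst st) i) k a a' := hnka k k A2 B2 st i a a' on2 supa hda hda'
    (hnib.2 _ _ _ _ _ hk1) (hnib.2 _ _ _ _ _ hk2)
  have l2 : L1 (LC k A2 B2 (Fst st) i) k b b' := hnka k k A2 B2 st i b b' on2 supb hdb hdb'
    (hnib.2 _ _ _ _ _ hk3) (hnib.2 _ _ _ _ _ hk4)
  have r1 : RR (LC k A1 B1 (Fst st) i) (asm k (wd i a b st)) (asm k (wd i a b (!st))) := by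
    refine hnin k k A1 B1 (Fst st) i (wd i a b st) (wd i a b (!st)) (two01_wd k i a b st)
      (two01_wd k i a b _) (fun j _ c => count_wd i a b st _ j c) ?_ ?_ ?_
    · rw [ty0_wd]
      exact hda
    · rw [ty1_wd]
      exact hdb
    · rw [ty0_wd, ty1_wd]
      exact hnib.1 _ _ _ _ _ _ hinc
  have h := hnpe β hcap hnc hmod k i A1 B1 A2 B2 (Fst st) st a a' b b' hik le1 le2 hda hda' hdb
    hdb' l1 l2 r1 (fun c hc => ⟨cA1 a' c sA1 hc, cA2 a' c sA2 hc⟩)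
    (fun c hc => ⟨cB1 b' c sB1 hc, cB2 b' c sB2 hc⟩) (fst_wd i a' b' st)
  exact not_fst_wd i a' b' st hai hbi h

end Pool.Agent.MWNP.H52
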